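import Pool.Agent.H55.GW.Targets3

/-!
# SEL: from chains to contexts
-/

set_option autoImplicit false

namespace Pool.Agent.H10.GW

open Pool.Agent.H55.GW

/-- selection of levels: no vertex of `X` changes side and the pattern is constant -/
theorem sel2 (k κ T : ℕ) : ∃ L : ℕ, ∀ (X : Finset ℕ) (P : ℕ → ℕ → Prop) (t : ℕ → Fin k → Bool),
    X.card ≤ κ → (∀ i j, i ≤ j → j ≤ L → ∀ ξ, P i ξ → P j ξ) →
    ∃ J : ℕ → ℕ, (∀ i < T, J i < J (i + 1)) ∧ J T ≤ L ∧ (∀ ξ ∈ X, P (J T) ξ → P (J 0) ξ) ∧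
      ∀ i ≤ T, t (J i) = t (J 0) := by
  classical
  obtain ⟨L2, hL2⟩ : ∃ L2, L2 = 2 ^ k * (T + 1) := ⟨_, rfl⟩
  have hpos : 1 ≤ L2 := by
    rw [hL2]
    exact Nat.one_le_iff_ne_zero.2 (by positivity)
  refine ⟨(κ + 1) * L2, fun X P t hX hP => ?_⟩
  have hgood : ∃ b ≤ κ, ∀ ξ ∈ X, P (b * L2 + L2 - 1) ξ → P (b * L2) ξ := by
    by_contra hcon
    push Not at hcon
    choose! f hf1 hf2 hf3 using hcon
    have hinj : Set.InjOn f (Finset.range (κ + 1) : Set ℕ) := by
      have key : ∀ b b', b' ≤ κ → b < b' → f b ≠ f b' := by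
        intro b b' hb' hlt heq
        have h1 := hf2 b (by omega)
        have h2 := hf3 b' hb'
        apply h2
        rw [← heq]
        have h3 : (b + 1) * L2 ≤ b' * L2 := Nat.mul_le_mul_right _ hlt
        have h4 : b' * L2 ≤ (κ + 1) * L2 := Nat.mul_le_mul_right _ (by omega)
        have h5 : (b + 1) * L2 = b * L2 + L2 := by ring
        exact hP _ _ (by omega) h4 _ h1
      intro b hb b' hb' heq
      simp only [Finset.coe_range, Set.mem_Iio] at hb hb'
      rcases lt_trichotomy b b' with h | h | h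
      · exact absurd heq (key b b' (by omega) h)
      · exact h
      · exact absurd heq.symm (key b' b (by omega) h)
    have h1 : (Finset.range (κ + 1)).card ≤ X.card :=
      Finset.card_le_card_of_injOn f (fun b hb => by
        simp only [Finset.coe_range, Set.mem_Iio] at hb
        exact hf1 b (by omega)) hinj
    rw [Finset.card_range] at h1
    omega
  obtain ⟨b, hb, hbX⟩ := hgood
  have hbL : b * L2 + L2 ≤ (κ + 1) * L2 := by
    have h3 : (b + 1) * L2 ≤ (κ + 1) * L2 := Nat.mul_le_mul_right _ (by omega)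
    have h5 : (b + 1) * L2 = b * L2 + L2 := by ring
    omega
  obtain ⟨y, -, hy⟩ := Finset.exists_le_card_fiber_of_mul_le_card_of_maps_to
    (s := Finset.range L2) (t := (Finset.univ : Finset (Fin k → Bool)))
    (f := fun j => t (b * L2 + j)) (n := T + 1) (fun _ _ => Finset.mem_univ _)
    Finset.univ_nonempty (by simp [hL2])
  obtain ⟨S, hS, hScard⟩ := Finset.exists_subset_card_eq hy
  have hSmem : ∀ j ∈ S, j < L2 ∧ t (b * L2 + j) = y := by
    intro j hj
    have := hS hj
    simpa using this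
  let e := S.orderEmbOfFin hScard
  have he : ∀ i : Fin (T + 1), e i < L2 ∧ t (b * L2 + e i) = y := fun i =>
    hSmem _ (Finset.orderEmbOfFin_mem S hScard i)
  let J : ℕ → ℕ := fun i => b * L2 + if h : i < T + 1 then e ⟨i, h⟩ else 0
  have hJ : ∀ i (h : i < T + 1), J i = b * L2 + e ⟨i, h⟩ := fun i h => by
    simp only [J]
    rw [dif_pos h]
  refine ⟨J, fun i hi => ?_, ?_, fun ξ hξ h => ?_, fun i hi => ?_⟩
  · rw [hJ i (by omega), hJ (i + 1) (by omega)]
    have : e ⟨i, by omega⟩ < e ⟨i + 1, by omega⟩ := by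
      rw [OrderEmbedding.lt_iff_lt]
      exact Fin.mk_lt_mk.2 (Nat.lt_succ_self i)
    omega
  · rw [hJ T (by omega)]
    have := (he ⟨T, by omega⟩).1
    omega
  · rw [hJ T (by omega)] at h
    rw [hJ 0 (by omega)]
    have h1 := (he ⟨T, by omega⟩).1
    have h2 := (he ⟨0, by omega⟩).1
    exact hP _ _ (by omega) (by omega) _ (hbX ξ hξ (hP _ _ (by omega) (by omega) _ h))
  · rw [hJ i (by omega), hJ 0 (by omega)]
    rw [(he ⟨i, by omega⟩).2, (he ⟨0, by omega⟩).2]

section

variable {F : Frame} {m : ℕ → Vx} {N : ℕ} {O : ℕ → Set Vx} {k : ℕ} {len : Fin k → ℕ}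
  {r : Fin k → ℕ → Vx}

theorem rail_int (h : Chn F m N O k len r) {c : Fin k} {p : ℕ} (h1 : 1 ≤ p) (h2 : p < len c) :
    ∃ v ∈ F.V, r c p = Sum.inr v := by
  have h3 := h.rails.arc c (p - 1) (by omega)
  have h4 := h.rails.arc c p h2
  rw [Nat.sub_add_cancel h1] at h3
  rcases hx : r c p with e | v
  · rw [hx] at h3 h4
    by_cases he : e ∈ F.base m
    · exact absurd h4 (Frame.no_out_snk he _)
    · exact absurd h3 (Frame.no_in_src he _)
  · rw [hx] at h4
    rcases (Frame.D_uni h4).1 with ⟨w, hw, hw'⟩ | ⟨e, he, he'⟩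
    · exact ⟨v, by rw [Sum.inr.inj hw']; exact hw, rfl⟩
    · exact absurd he' (by simp)

theorem rail_walk {D : Vx → Vx → Prop} {A B : Set Vx} (h : Rails D k len r A B) (c : Fin k)
    (a b : ℕ) (hab : a ≤ b) (hb : b ≤ len c) (S : Set Vx)
    (hS : ∀ p, a ≤ p → p ≤ b → r c p ∈ S) : RIn D S (r c a) (r c b) := by
  induction b, hab using Nat.le_induction with
  | base => exact RIn.refl (hS a le_rfl le_rfl)
  | succ b hab ih =>
    exact (ih (by omega) fun p h1 h2 => hS p h1 (by omega)).tail (h.arc c b (by omega))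
      (hS (b + 1) (by omega) le_rfl)

theorem inc_walk (h : Chn F m N O k len r) {i : ℕ} (hi : i ≤ N) {S : Set Vx} {x y : Vx}
    (hr : RIn (F.D m) S x y) (hy : y ∈ O i) : x ∈ O i := by
  have key : y ∈ O i → x ∈ O i := by
    refine hr.induct (p := fun v => v ∈ O i → x ∈ O i) id ?_
    intro u v _ _ hd hu hv
    exact hu (h.inc i hi u v hd hv)
  exact key hy

theorem inc_rail (h : Chn F m N O k len r) {i : ℕ} (hi : i ≤ N) {c : Fin k} {p q : ℕ}
    (hpq : p ≤ q) (hq : q ≤ len c) (hr : r c q ∈ O i) : r c p ∈ O i :=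
  inc_walk h hi (rail_walk h.rails c p q hpq hq Set.univ fun _ _ _ => trivial) hr

/-- number of an internal vertex -/
def num : Vx → ℕ := Sum.elim (fun _ => 0) id

theorem inr_num {x : Vx} (h : ∃ v ∈ F.V, x = Sum.inr v) : Sum.inr (num x) = x ∧ num x ∈ F.V := by
  obtain ⟨v, hv, rfl⟩ := h
  exact ⟨rfl, hv⟩

/-- the construction of the context from the selected levels `J 0 < … < J (T + 2)` -/
theorem build {pz : ℕ → Fin k → ℕ} {Ξ : Finset ℕ} {g T : ℕ} (hC : Chn F m N O k len r)
    (hZ : Zc F m N O k len r pz)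
    (hN : ∀ i ≤ N, ∀ c, ∀ p ≤ len c, (r c p ∈ O i → p ≤ pz i c + g) ∧
      (r c p ∉ O i → pz i c ≤ p + g)) (hX : XiP F m N O k r pz Ξ)
    (J : ℕ → ℕ) (mv : Set (Fin k)) (ty : Fin k → Bool) (pc : Fin k → ℕ) (X : Finset ℕ)
    (hJ : ∀ i < T + 2, J i < J (i + 1)) (hJN : J (T + 2) ≤ N)
    (hmv : ∀ c ∈ mv, ∀ i < T + 2, pz (J i) c + (2 * g + 4) ≤ pz (J (i + 1)) c)
    (hpc : ∀ c ∉ mv, ∀ i ≤ T + 2, pz (J i) c = pc c)
    (hty : ∀ c ∈ mv, ∀ i ≤ T + 2, (r c (pz (J i) c) ∈ O (J i) ↔ ty c = true))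
    (hXV : ∀ v ∈ X, v ∈ F.V) (hXi : Ξ ⊆ X)
    (hXv : ∀ c ∉ mv, ∀ v, r c (pc c) = Sum.inr v → v ∈ X)
    (hXu : ∀ c ∉ mv, ∀ v u, r c (pc c) = Sum.inr v → m v = Sum.inr u → u ∈ X)
    (hside : ∀ ξ ∈ X, Sum.inr ξ ∈ O (J (T + 2)) → Sum.inr ξ ∈ O (J 0)) :
    ∃ (c : Ctx), c.Ok ∧ c.F = F ∧ c.m = m ∧ c.T = T ∧ c.k ≤ k ∧ c.Ξ = X ∧
      c.O = fun i => O (J (i + 1)) := by
  classical
  have hpm := hC.pm
  have hJmono : ∀ i j, i ≤ j → j ≤ T + 2 → J i ≤ J j := by
    intro i j hij
    induction j, hij using Nat.le_induction with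
    | base => exact fun _ => le_rfl
    | succ j hij ih =>
      intro hj
      exact (ih (by omega)).trans (hJ j (by omega)).le
  have hJle : ∀ i ≤ T + 2, J i ≤ N := fun i hi => (hJmono i (T + 2) hi le_rfl).trans hJN
  have hOm : ∀ i j, i ≤ j → j ≤ T + 2 → O (J i) ⊆ O (J j) := fun i j h1 h2 =>
    hC.mono _ _ (hJmono i j h1 h2) (hJle j h2)
  -- growth
  have hgr : ∀ c ∈ mv, ∀ i j, i < j → j ≤ T + 2 →
      pz (J i) c + (2 * g + 4) ≤ pz (J j) c := by
    intro c hc i j hij
    induction j, (Nat.succ_le_of_lt hij) using Nat.le_induction with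
    | base => exact fun hj => hmv c hc i (by omega)
    | succ j hij' ih =>
      intro hj
      have h1 := ih (by omega) (by omega)
      have h2 := hmv c hc j (by omega)
      omega
  have hrng : ∀ i ≤ T + 2, ∀ c, 1 ≤ pz (J i) c ∧ pz (J i) c < len c := fun i hi c =>
    hZ.rng _ (hJle i hi) c
  -- end of the rails
  have hend : ∀ c, ∀ i ≤ T + 2, r c (len c) ∉ O (J i) := fun c i hi h =>
    (hC.rails.fin c).2 (hC.mono _ _ (hJle i hi) le_rfl h)
  have hsta : ∀ c, ∀ i ≤ T + 2, r c 0 ∈ O (J i) := fun c i hi =>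
    hC.mono _ _ (Nat.zero_le _) (hJle i hi) (hC.rails.start c).2
  -- the vertex at the cut position, for moving rails and positive level
  have hQ : ∀ c ∈ mv, ∀ i, 1 ≤ i → i ≤ T + 2 → ∃ v ∈ F.V, r c (pz (J i) c) = Sum.inr v ∧
      ¬ F.isP v := by
    intro c hc i h1 h2
    obtain ⟨v, hv, hv'⟩ := rail_int hC (hrng i h2 c).1 (hrng i h2 c).2
    refine ⟨v, hv, hv', fun hP => ?_⟩
    have h3 := hZ.cls (J i) (hJle i h2) c v hv' hP
    have h4 := hgr c hc 0 i (by omega) h2
    omega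
  -- type true: the next vertex
  have hP : ∀ c ∈ mv, ty c = true → ∀ i, 1 ≤ i → i ≤ T + 2 → pz (J i) c + 1 < len c ∧
      ∃ v ∈ F.V, ∃ u ∈ F.V, r c (pz (J i) c) = Sum.inr v ∧ r c (pz (J i) c + 1) = Sum.inr u ∧
        m v = Sum.inr u ∧ m u = Sum.inr v ∧ F.isP u ∧ ¬ F.isP v ∧ Sum.inr u ∈ O (J i) := by
    intro c hc ht i h1 h2
    obtain ⟨v, hv, hv', hvQ⟩ := hQ c hc i h1 h2
    have h3 := (hty c hc i h2).2 ht
    have h4 := hC.rails.arc c _ (hrng i h2 c).2
    rw [hv'] at h4
    have h5 := Frame.out_Q hpm hvQ h4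
    have h6 : m v ∈ O (J i) := by
      rw [hv'] at h3
      exact (hC.hub _ (hJle i h2) v hv).1 h3
    have h7 : pz (J i) c + 1 < len c := by
      rcases Nat.lt_or_ge (pz (J i) c + 1) (len c) with h | h
      · exact h
      · exfalso
        have h8 : pz (J i) c + 1 = len c := le_antisymm (hrng i h2 c).2 h
        rw [h8] at h5
        exact hend c i h2 (h5 ▸ h6)
    refine ⟨h7, ?_⟩
    obtain ⟨u, hu, hu'⟩ := rail_int hC (c := c) (p := pz (J i) c + 1) (by omega) h7
    have h9 : m v = Sum.inr u := by rw [← h5, hu']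
    rcases hpm.cases hv with ⟨e, he, -⟩ | ⟨u', hu1, hu2, hu3, hu4, -⟩
    · rw [he] at h9
      exact absurd h9 (by simp)
    · rw [h9] at hu1
      obtain rfl := Sum.inr.inj hu1
      refine ⟨v, hv, u, hu, hv', hu', h9, hu3, ?_, hvQ, ?_⟩
      · by_contra hcon
        exact hvQ (hu4.2 hcon)
      · rw [← h9]
        exact h6
  -- positions of the boundary vertices
  let pos : ℕ → Fin k → ℕ := fun i c => pz (J (i + 1)) c + if ty c = true then 1 else 0
  have hpos1 : ∀ i c, pz (J (i + 1)) c ≤ pos i c := fun i c => Nat.le_add_right _ _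
  have hpos2 : ∀ i c, pos i c ≤ pz (J (i + 1)) c + 1 := fun i c => by
    simp only [pos]
    split_ifs <;> omega
  have hposT : ∀ i c, ty c = true → pos i c = pz (J (i + 1)) c + 1 := fun i c h => by
    simp [pos, h]
  have hposF : ∀ i c, ¬ ty c = true → pos i c = pz (J (i + 1)) c := fun i c h => by
    simp [pos, h]
  have hposlt : ∀ i ≤ T, ∀ c ∈ mv, pos i c < len c := by
    intro i hi c hc
    by_cases ht : ty c = true
    · rw [hposT i c ht]
      exact (hP c hc ht (i + 1) (by omega) (by omega)).1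
    · rw [hposF i c ht]
      exact (hrng (i + 1) (by omega) c).2
  have hsint : ∀ i ≤ T, ∀ c ∈ mv, ∃ v ∈ F.V, r c (pos i c) = Sum.inr v := by
    intro i hi c hc
    refine rail_int hC ?_ (hposlt i hi c hc)
    exact (hrng (i + 1) (by omega) c).1.trans (hpos1 i c)
  have hsO : ∀ i ≤ T, ∀ c ∈ mv, ty c = true → F.isP (num (r c (pos i c))) ∧
      r c (pos i c) ∈ O (J (i + 1)) ∧ ∀ j < i, r c (pos i c) ∉ O (J (j + 1)) := by
    intro i hi c hc ht
    obtain ⟨h1, v, hv, u, hu, h2, h3, h4, h5, h6, h7, h8⟩ :=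
      hP c hc ht (i + 1) (by omega) (by omega)
    rw [hposT i c ht, h3]
    refine ⟨h6, h8, fun j hj hcon => ?_⟩
    rw [← h3] at hcon
    have h9 := (hN _ (hJle (j + 1) (by omega)) c _ h1.le).1 hcon
    have h10 := hgr c hc (j + 1) (i + 1) (by omega) (by omega)
    omega
  have hsI : ∀ i ≤ T, ∀ c ∈ mv, ¬ ty c = true → ¬ F.isP (num (r c (pos i c))) ∧
      r c (pos i c) ∉ O (J (i + 1)) ∧ ∀ j, i < j → j ≤ T → r c (pos i c) ∈ O (J (j + 1)) := by
    intro i hi c hc ht
    obtain ⟨v, hv, hv', hvQ⟩ := hQ c hc (i + 1) (by omega) (by omega)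
    have h1 : r c (pz (J (i + 1)) c) ∉ O (J (i + 1)) := fun h =>
      ht ((hty c hc (i + 1) (by omega)).1 h)
    rw [hposF i c ht]
    refine ⟨by rw [hv']; exact hvQ, h1, fun j hij hj => ?_⟩
    by_contra hcon
    have h9 := (hN _ (hJle (j + 1) (by omega)) c _ (hrng (i + 1) (by omega) c).2.le).2 hcon
    have h10 := hgr c hc (i + 1) (j + 1) (by omega) (by omega)
    omega
  -- positions near the selected cuts are not in `X`
  have hXout : ∀ c ∈ mv, ∀ w ∈ X, ∀ p, r c p = Sum.inr w → p ≤ len c → ∀ i, 1 ≤ i → i ≤ T + 1 →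
      pz (J i) c ≤ p + 1 → p ≤ pz (J i) c + 2 → False := by
    intro c hc w hw p hp hple i h1 h2 h3 h4
    have h5 : Sum.inr w ∈ O (J (T + 2)) := by
      by_contra hcon
      rw [← hp] at hcon
      have h6 := (hN _ (hJle (T + 2) le_rfl) c p hple).2 hcon
      have h7 := hgr c hc i (T + 2) (by omega) le_rfl
      omega
    have h6 := hside w hw h5
    rw [← hp] at h6
    have h7 := (hN _ (hJle 0 (by omega)) c p hple).1 h6
    have h8 := hgr c hc 0 i (by omega) (by omega)
    omega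
  -- claim A
  have hA : ∀ i ≤ T, ∀ c ∈ mv, ty c = true → r c (pz (J (i + 1)) c + 2) ∉ O (J (i + 1)) := by
    intro i hi c hc ht hcon
    obtain ⟨h1, v, hv, u, hu, h2, h3, h4, h5, h6, h7, h8⟩ :=
      hP c hc ht (i + 1) (by omega) (by omega)
    have hlt : pz (J (i + 1)) c + 2 < len c := by
      rcases Nat.lt_or_ge (pz (J (i + 1)) c + 2) (len c) with h | h
      · exact h
      · exfalso
        have h9 : pz (J (i + 1)) c + 2 = len c := by omega
        rw [h9] at hcon
        exact hend c (i + 1) (by omega) hcon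
    obtain ⟨w, hw, hw'⟩ := rail_int hC (c := c) (p := pz (J (i + 1)) c + 2) (by omega) hlt
    have harc := hC.rails.arc c _ h1
    rw [h3, hw'] at harc
    have hwQ : ¬ F.isP w := by
      rcases harc with ⟨h, -⟩ | ⟨h, -⟩
      · exact Frame.adj_notP h
      · exact absurd h6 (Frame.adj_notP h)
    have hwZ : Sum.inr w ∉ Zs r (pz (J (i + 1))) := by
      rintro ⟨c', hc'⟩
      rw [← hw'] at hc'
      have := hC.rails.inj c _ c' _ hlt.le (hrng (i + 1) (by omega) c').2.le hc'
      obtain ⟨rfl, h⟩ := this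
      omega
    have hsep : Sep (F.D m) (Zs r (pz (J (i + 1)))) (F.src m) {Sum.inr w} := by
      intro x hx y hy hr
      rw [Set.mem_singleton_iff] at hy
      subst hy
      have hxO : x ∈ O (J (i + 1)) := by
        refine inc_walk hC (hJle (i + 1) (by omega)) hr ?_
        rw [← hw']
        exact hcon
      refine hZ.sep (J (i + 1)) (hJle (i + 1) (by omega)) x ⟨hx, hxO⟩ (r c (len c))
        ⟨(hC.rails.fin c).1, hend c (i + 1) (by omega)⟩ ?_
      refine hr.trans ?_
      rw [← hw']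
      refine rail_walk hC.rails c _ _ hlt.le le_rfl _ ?_
      rintro p hp1 hp2 ⟨c', hc'⟩
      have := hC.rails.inj c _ c' _ hp2 (hrng (i + 1) (by omega) c').2.le hc'
      obtain ⟨rfl, h⟩ := this
      omega
    have hwX := hXi (hX.u _ (hJle (i + 1) (by omega)) w hw hwQ hwZ hsep)
    exact hXout c hc w hwX _ hw' hlt.le (i + 1) (by omega) (by omega) (by omega) (by omega)
  -- claim B
  have hB : ∀ i ≤ T, ∀ c ∈ mv, r c (pz (J (i + 1)) c - 1) ∈ O (J (i + 1)) := by
    intro i hi c hc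
    by_contra hcon
    obtain ⟨v, hv, hv', hvQ⟩ := hQ c hc (i + 1) (by omega) (by omega)
    have h1 := hgr c hc 0 (i + 1) (by omega) (by omega)
    have h2 := (hrng (i + 1) (by omega) c).2
    obtain ⟨w, hw, hw'⟩ := rail_int hC (c := c) (p := pz (J (i + 1)) c - 1) (by omega) (by omega)
    have harc := hC.rails.arc c (pz (J (i + 1)) c - 1) (by omega)
    rw [Nat.sub_add_cancel (by omega), hw', hv'] at harc
    have hwP : F.isP w := by
      rcases harc with ⟨h, -⟩ | ⟨h, -⟩
      · exact Frame.adj_isP h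
      · exact absurd (Frame.adj_isP h) hvQ
    have hwZ : Sum.inr w ∉ Zs r (pz (J (i + 1))) := by
      rintro ⟨c', hc'⟩
      rw [← hw'] at hc'
      have := hC.rails.inj c _ c' _ (by omega) (hrng (i + 1) (by omega) c').2.le hc'
      obtain ⟨rfl, h⟩ := this
      omega
    have hsep : Sep (F.D m) (Zs r (pz (J (i + 1)))) {Sum.inr w} (F.snk m) := by
      intro x hx y hy hr
      rw [Set.mem_singleton_iff] at hx
      subst hx
      have hyO : y ∉ O (J (i + 1)) := by
        intro hyO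
        apply hcon
        rw [hw']
        exact inc_walk hC (hJle (i + 1) (by omega)) hr hyO
      refine hZ.sep (J (i + 1)) (hJle (i + 1) (by omega)) (r c 0)
        ⟨(hC.rails.start c).1, hsta c (i + 1) (by omega)⟩ y ⟨hy, hyO⟩ ?_
      refine RIn.trans ?_ hr
      rw [← hw']
      refine rail_walk hC.rails c _ _ (Nat.zero_le _) (by omega) _ ?_
      rintro p hp1 hp2 ⟨c', hc'⟩
      have := hC.rails.inj c _ c' _ (by omega) (hrng (i + 1) (by omega) c').2.le hc'
      obtain ⟨rfl, h⟩ := this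
      omega
    have hwX := hXi (hX.w _ (hJle (i + 1) (by omega)) w hw hwP hwZ hsep)
    exact hXout c hc w hwX _ hw' (by omega) (i + 1) (by omega) (by omega) (by omega) (by omega)
  -- enumeration of the moving rails
  obtain ⟨k', hk', e, he1, he2, he3⟩ : ∃ k' ≤ k, ∃ e : Fin k' → Fin k, Function.Injective e ∧
      (∀ a, e a ∈ mv) ∧ ∀ c ∈ mv, ∃ a, e a = c := by
    have hfin : mv.Finite := Set.toFinite mv
    refine ⟨hfin.toFinset.card, ?_, ?_⟩
    · have := Finset.card_le_univ hfin.toFinset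
      simpa using this
    · let q := hfin.toFinset.equivFin.symm
      refine ⟨fun a => (q a : Fin k), fun a b hab => q.injective (Subtype.ext hab), fun a => ?_,
        fun c hc => ?_⟩
      · exact hfin.mem_toFinset.1 (q a).2
      · refine ⟨q.symm ⟨c, hfin.mem_toFinset.2 hc⟩, ?_⟩
        simp
  -- the context
  let ctx : Ctx :=
    { F := F, m := m, T := T, O := fun i => O (J (i + 1)), Ξ := X, k := k'
      ty := fun a => ty (e a)
      s := fun i a => num (r (e a) (pos i (e a)))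
      Tr := fun a => {x | ∃ p ≤ len (e a), x = r (e a) p} }
  have hs : ∀ i ≤ T, ∀ a : Fin k', Sum.inr (num (r (e a) (pos i (e a)))) = r (e a) (pos i (e a)) ∧
      num (r (e a) (pos i (e a))) ∈ F.V := fun i hi a => inr_num (hsint i hi (e a) (he2 a))
  refine ⟨ctx, ?_, rfl, rfl, rfl, hk', rfl, rfl⟩
  refine
    { pm := hpm
      sub := fun i hi => hC.sub _ (hJle (i + 1) (Nat.succ_le_succ (Nat.le_succ_of_le hi)))
      mono := fun i j hij hj => hOm (i + 1) (j + 1) (Nat.succ_le_succ hij)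
        (Nat.succ_le_succ (Nat.le_succ_of_le hj))
      inc := fun i hi => hC.inc _ (hJle (i + 1) (Nat.succ_le_succ (Nat.le_succ_of_le hi)))
      hub := fun i hi => hC.hub _ (hJle (i + 1) (Nat.succ_le_succ (Nat.le_succ_of_le hi)))
      xiV := ?_, sV := ?_, sO := ?_, sI := ?_, cover := ?_, seg := ?_, tr := ?_, dTr := ?_ }
  · -- xiV
    intro ξ hξ
    refine ⟨hXV ξ hξ, ?_⟩
    by_cases h : Sum.inr ξ ∈ O (J (T + 2))
    · exact Or.inl (hOm 0 1 (by omega) (by omega) (hside ξ hξ h))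
    · exact Or.inr fun h' => h (hOm (T + 1) (T + 2) (by omega) le_rfl h')
  · -- sV
    intro i hi a
    have hi' : i ≤ T := hi
    obtain ⟨h1, h2⟩ := hs i hi a
    refine ⟨h2, fun hcon => ?_, ?_⟩
    · have h3 := hpos1 i (e a)
      have h4 := hpos2 i (e a)
      exact hXout (e a) (he2 a) _ hcon (pos i (e a)) h1.symm (hposlt i hi' _ (he2 a)).le (i + 1)
        (by omega) (by omega) (by omega) (by omega)
    · exact ⟨pos i (e a), (hposlt i hi' _ (he2 a)).le, h1⟩
  · -- sO
    intro i hi a ht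
    obtain ⟨h1, h2, h3⟩ := hsO i hi (e a) (he2 a) ht
    obtain ⟨h4, h5⟩ := hs i hi a
    refine ⟨h1, ?_, fun j hj => ?_⟩
    · show Sum.inr (num (r (e a) (pos i (e a)))) ∈ O (J (i + 1))
      rw [h4]; exact h2
    · show Sum.inr (num (r (e a) (pos i (e a)))) ∉ O (J (j + 1))
      rw [h4]; exact h3 j hj
  · -- sI
    intro i hi a ht
    have ht' : ¬ ty (e a) = true := by
      have : ty (e a) = false := ht
      simp [this]
    obtain ⟨h1, h2, h3⟩ := hsI i hi (e a) (he2 a) ht'
    obtain ⟨h4, h5⟩ := hs i hi a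
    refine ⟨h1, ?_, fun j hj hj' => ?_⟩
    · show Sum.inr (num (r (e a) (pos i (e a)))) ∉ O (J (i + 1))
      rw [h4]; exact h2
    · show Sum.inr (num (r (e a) (pos i (e a)))) ∈ O (J (j + 1))
      rw [h4]; exact h3 j hj hj'
  · -- cover
    intro i hi x y hxy hx hy
    have hi' : i ≤ T := hi
    have hle : i + 1 ≤ T + 2 := by omega
    rcases hX.cover (J (i + 1)) (hJle _ hle) x y hxy hx hy with ⟨ξ, hξ, h⟩ | ⟨c, v, h1, h2, h3⟩
    · exact Or.inl ⟨ξ, hXi hξ, h⟩
    · have hv : v ∈ F.V := by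
        obtain ⟨v', hv', h⟩ := rail_int hC (hrng (i + 1) hle c).1 (hrng (i + 1) hle c).2
        rw [h1] at h
        rw [Sum.inr.inj h]; exact hv'
      by_cases hc : c ∈ mv
      · obtain ⟨a, rfl⟩ := he3 c hc
        right
        refine ⟨a, ?_⟩
        obtain ⟨h4, -⟩ := hs i hi a
        rcases h3 with h3 | h3
        · left
          have h5 : Sum.inr v ∈ O (J (i + 1)) := by
            rw [hC.hub _ (hJle _ hle) v hv, ← h3]
            exact hx
          have h6 : ty (e a) = true := (hty (e a) hc (i + 1) hle).1 (h1 ▸ h5)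
          refine ⟨h6, ?_⟩
          show x = Sum.inr (num (r (e a) (pos i (e a))))
          rw [h4, hposT i _ h6, h3]
          have h7 := hC.rails.arc (e a) _ (hrng (i + 1) hle (e a)).2
          rw [h1] at h7
          exact (Frame.out_Q hpm h2 h7).symm
        · right
          have h6 : ¬ ty (e a) = true := fun h => hy (by
            have := (hty (e a) hc (i + 1) hle).2 h
            rw [h1] at this
            show y ∈ O (J (i + 1))
            rw [h3]; exact this)
          refine ⟨by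
            show ty (e a) = false
            simpa using h6, ?_⟩
          show y = Sum.inr (num (r (e a) (pos i (e a))))
          rw [h4, hposF i _ h6, h3, h1]
      · left
        have h4 : r c (pc c) = Sum.inr v := by rw [← hpc c hc (i + 1) hle]; exact h1
        rcases h3 with h3 | h3
        · rcases hpm.cases hv with ⟨e', he', hatt⟩ | ⟨u, hu1, hu2, -⟩
          · exfalso
            rw [h3, he'] at hxy
            refine Frame.no_out_snk ?_ _ hxy
            rw [Frame.mem_base_iff hatt]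
            exact ⟨fun h => absurd h h2, fun h => absurd he' h⟩
          · exact ⟨u, hXu c hc v u h4 hu1, Or.inl (h3.trans hu1)⟩
        · exact ⟨v, hXv c hc v h4, Or.inr h3⟩
  · -- seg
    intro i hi a
    have hi' : i < T := hi
    obtain ⟨h4, -⟩ := hs i hi'.le a
    obtain ⟨h5, -⟩ := hs (i + 1) hi' a
    have hc := he2 a
    have hg1 := hgr (e a) hc (i + 1) (i + 1 + 1) (by omega) (by omega)
    have hp1 := hpos1 i (e a)
    have hp2 := hpos2 i (e a)
    have hp3 := hpos1 (i + 1) (e a)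
    have hp4 := hpos2 (i + 1) (e a)
    have hl := hposlt (i + 1) hi' (e a) hc
    show RIn (F.D m) _ (Sum.inr (num (r (e a) (pos i (e a)))))
      (Sum.inr (num (r (e a) (pos (i + 1) (e a)))))
    rw [h4, h5]
    refine rail_walk hC.rails (e a) _ _ (by omega) hl.le _ ?_
    intro p hpa hpb
    refine ⟨⟨p, by omega, rfl⟩, ?_⟩
    show (r (e a) p ∈ O (J (i + 1 + 1)) ∧ r (e a) p ∉ O (J (i + 1))) ∨
      r (e a) p = r (e a) (pos i (e a)) ∨ r (e a) p = r (e a) (pos (i + 1) (e a))
    by_cases ht : ty (e a) = true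
    · by_cases hpe : p = pos i (e a)
      · exact Or.inr (Or.inl (by rw [hpe]))
      · left
        refine ⟨inc_rail hC (hJle _ (by omega)) hpb hl.le (hsO (i + 1) hi' (e a) hc ht).2.1, ?_⟩
        intro hcon
        have h6 := hposT i (e a) ht
        refine hA i hi'.le (e a) hc ht (inc_rail hC (hJle _ (by omega)) ?_ ?_ hcon)
        · omega
        · omega
    · by_cases hpe : p = pos (i + 1) (e a)
      · exact Or.inr (Or.inr (by rw [hpe]))
      · left
        have h6 := hposF (i + 1) (e a) ht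
        refine ⟨inc_rail hC (hJle _ (by omega)) (q := pz (J (i + 1 + 1)) (e a) - 1) (by omega)
          (by omega) (hB (i + 1) hi' (e a) hc), ?_⟩
        intro hcon
        exact (hsI i hi'.le (e a) hc ht).2.1 (inc_rail hC (hJle _ (by omega)) hpa (by omega) hcon)
  · -- tr
    intro a
    refine ⟨r (e a) 0, ⟨(hC.rails.start _).1, hsta _ 1 (by omega)⟩, r (e a) (len (e a)),
      ⟨(hC.rails.fin _).1, hend _ (T + 1) (by omega)⟩, ?_⟩
    rintro z ⟨p, hp, rfl⟩
    exact ⟨rail_walk hC.rails (e a) _ _ (Nat.zero_le _) hp _ fun q _ hq => ⟨q, by omega, rfl⟩,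
      rail_walk hC.rails (e a) _ _ hp le_rfl _ fun q _ hq => ⟨q, by omega, rfl⟩⟩
  · -- dTr
    intro a b hab
    rw [Set.disjoint_left]
    rintro x ⟨p, hp, rfl⟩ ⟨q, hq, h⟩
    exact hab (he1 (hC.rails.inj _ _ _ _ hp hq h).1)

end

theorem sel (hSQ : T_SQ) : T_SEL := by
  classical
  intro k K g T
  obtain ⟨L, hL⟩ := sel2 k (K + 2 * k) (T + 2)
  obtain ⟨N, hNN⟩ := hSQ k L (2 * g + 4)
  refine ⟨N, fun F m O len r pz Ξ hC hZ hN hX hcard => ?_⟩
  obtain ⟨ix0, mv, hix, hixL, hmv, hnm⟩ := hNN (fun c i => pz i c) fun c i j hij hj =>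
    hZ.mono i j hij hj c
  have hixm : ∀ i j, i ≤ j → j ≤ L → ix0 i ≤ ix0 j := by
    intro i j hij
    induction j, hij using Nat.le_induction with
    | base => exact fun _ => le_rfl
    | succ j hij ih =>
      intro hj
      exact (ih (by omega)).trans (hix j (by omega)).le
  have hixN : ∀ i ≤ L, ix0 i ≤ N := fun i hi => (hixm i L hi le_rfl).trans hixL
  let pc : Fin k → ℕ := fun c => pz (ix0 0) c
  let nmv : Finset (Fin k) := Finset.univ.filter fun c => c ∉ mv
  let X : Finset ℕ := Ξ ∪ ((nmv.image fun c => num (r c (pc c))) ∪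
    ((nmv.filter fun c => ∃ u, m (num (r c (pc c))) = Sum.inr u).image fun c =>
      num (m (num (r c (pc c))))))
  have hpcr : ∀ c, 1 ≤ pc c ∧ pc c < len c := fun c => hZ.rng _ (hixN 0 (Nat.zero_le _)) c
  have hXcard : X.card ≤ K + 2 * k := by
    have h1 : nmv.card ≤ k := by
      have := Finset.card_le_univ nmv
      simpa using this
    calc X.card ≤ Ξ.card + (nmv.card + nmv.card) := by
          refine (Finset.card_union_le _ _).trans (Nat.add_le_add_left ?_ _)
          refine (Finset.card_union_le _ _).trans (Nat.add_le_add Finset.card_image_le ?_)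
          exact Finset.card_image_le.trans (Finset.card_filter_le _ _)
      _ ≤ K + 2 * k := by omega
  have hXV : ∀ v ∈ X, v ∈ F.V := by
    intro v hv
    simp only [X, Finset.mem_union, Finset.mem_image, Finset.mem_filter] at hv
    rcases hv with hv | ⟨c, -, rfl⟩ | ⟨c, ⟨-, u, hu⟩, rfl⟩
    · exact hX.V v hv
    · exact (inr_num (rail_int hC (hpcr c).1 (hpcr c).2)).2
    · have h1 := (inr_num (rail_int hC (hpcr c).1 (hpcr c).2)).2
      rcases hC.pm.cases h1 with ⟨e', he', -⟩ | ⟨u', hu', hu2, -⟩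
      · rw [hu] at he'
        exact absurd he' (by simp)
      · rw [hu']
        exact hu2
  have hXi : Ξ ⊆ X := Finset.subset_union_left
  have hXv : ∀ c ∉ mv, ∀ v, r c (pc c) = Sum.inr v → v ∈ X := by
    intro c hc v hv
    simp only [X, Finset.mem_union, Finset.mem_image, Finset.mem_filter]
    refine Or.inr (Or.inl ⟨c, by simp [nmv, hc], ?_⟩)
    rw [hv]; rfl
  have hXu : ∀ c ∉ mv, ∀ v u, r c (pc c) = Sum.inr v → m v = Sum.inr u → u ∈ X := by
    intro c hc v u hv hu
    simp only [X, Finset.mem_union, Finset.mem_image, Finset.mem_filter]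
    refine Or.inr (Or.inr ⟨c, ⟨by simp [nmv, hc], u, ?_⟩, ?_⟩)
    · rw [hv]; exact hu
    · rw [hv]
      show num (m v) = u
      rw [hu]; rfl
  obtain ⟨J, hJ1, hJ2, hJ3, hJ4⟩ := hL X (fun j ξ => Sum.inr ξ ∈ O (ix0 j))
    (fun j c => decide (r c (pz (ix0 j) c) ∈ O (ix0 j))) hXcard (fun i j hij hj ξ hξ =>
      hC.mono _ _ (hixm i j hij hj) (hixN j hj) hξ)
  have hJm : ∀ i j, i ≤ j → j ≤ T + 2 → J i ≤ J j := by
    intro i j hij
    induction j, hij using Nat.le_induction with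
    | base => exact fun _ => le_rfl
    | succ j hij ih =>
      intro hj
      exact (ih (by omega)).trans (hJ1 j (by omega)).le
  have hJL : ∀ i ≤ T + 2, J i ≤ L := fun i hi => (hJm i _ hi le_rfl).trans hJ2
  have hlt0 : ∀ i j, i < j → j ≤ L → ix0 i < ix0 j := fun i j hij hj =>
    (hix i (by omega)).trans_le (hixm (i + 1) j hij hj)
  have hlt : ∀ i < T + 2, ix0 (J i) < ix0 (J (i + 1)) := fun i hi =>
    hlt0 _ _ (hJ1 i hi) (hJL (i + 1) hi)
  obtain ⟨c, hok, hF, hm, hT, hk, hΞ, hO⟩ := build (T := T) hC hZ hN hX (fun i => ix0 (J i)) mv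
    (fun c => decide (r c (pz (ix0 (J 0)) c) ∈ O (ix0 (J 0)))) pc X hlt (hixN _ hJ2)
    (fun c hc i hi => by
      have h1 := hJ1 i hi
      have h2 := hJL (i + 1) hi
      have h3 := hmv c hc (J i) (by omega)
      have h4 := hZ.mono _ _ (hixm (J i + 1) (J (i + 1)) h1 h2) (hixN _ h2) c
      exact h3.trans h4)
    (fun c hc i hi => by
      have h1 := hnm c hc
      have h2 := hZ.mono _ _ (hixm 0 (J i) (Nat.zero_le _) (hJL i hi)) (hixN _ (hJL i hi)) c
      have h3 := hZ.mono _ _ (hixm (J i) L (hJL i hi) le_rfl) (hixN _ le_rfl) c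
      exact le_antisymm (h3.trans h1.ge) h2)
    (fun c hc i hi => by
      have := congrFun (hJ4 i hi) c
      show r c (pz (ix0 (J i)) c) ∈ O (ix0 (J i)) ↔ _
      rw [← this]
      simp)
    hXV hXi hXv hXu hJ3
  refine ⟨c, fun i => ix0 (J (i + 1)), hok, hF, hm, hT, hk, by rw [hΞ]; exact hXcard,
    fun i hi => hlt (i + 1) (by omega), hixN _ (hJL (T + 1) (by omega)), fun i _ => by rw [hO]⟩

end Pool.Agent.H10.GW
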