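import Pool.Agent.H71.GW.Targets

set_option autoImplicit false

open Finset
open scoped Classical

namespace Pool.Agent.H10.GW

open Pool.Agent.H71.GW

/-- adding a unit vector below `u` -/
lemma single_le_iff {J : Type} [Fintype J] (κ u : J → ℕ) (h : κ ≤ u) (j : J) (e : ℕ) :
    κ + Pi.single j e ≤ u ↔ κ j + e ≤ u j := by
  constructor
  · intro h'
    have := h' j
    simpa using this
  · intro h' i
    by_cases hi : i = j
    · subst hi
      simpa using h'
    · have := h i
      simp [hi, this]

/-- one coordinate, lower estimate -/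
lemma one_lo (V : ℤ) (hV : 0 ≤ V) (f : ℕ → ℤ) (y : ℕ) :
    ∀ N : ℕ, (∀ e, 1 ≤ e → e ≤ N → e ≤ y → f e ≤ V) →
      (∀ e, 1 ≤ e → e ≤ N → ¬ e ≤ y → f e ≤ 0) →
      ∑ e ∈ Icc 1 N, f e ≤ (min N y : ℕ) * V := by
  intro N
  induction N with
  | zero =>
    intro _ _
    simp
  | succ N ih =>
    intro h1 h2
    have ih' := ih (fun e he1 he2 he3 => h1 e he1 (by omega) he3)
      (fun e he1 he2 he3 => h2 e he1 (by omega) he3)
    rw [Finset.sum_Icc_succ_top (by omega)]
    by_cases hy : N + 1 ≤ y
    · have h3 := h1 (N + 1) (by omega) le_rfl hy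
      have e1 : min N y = N := by omega
      have e2 : min (N + 1) y = N + 1 := by omega
      rw [e1] at ih'
      rw [e2]
      push_cast
      nlinarith
    · have h3 := h2 (N + 1) (by omega) le_rfl hy
      have e1 : min (N + 1) y = min N y := by omega
      rw [e1]
      linarith

/-- one coordinate, upper estimate -/
lemma one_up (V : ℤ) (f : ℕ → ℤ) (y : ℕ) (N : ℕ) (hN : 1 ≤ N)
    (h1 : ∀ e, 1 ≤ e → e < N → e ≤ y → V ≤ f e)
    (h2 : N ≤ y → (1 + (y - N : ℕ)) * V ≤ f N)
    (h3 : ∀ e, 1 ≤ e → e ≤ N → ¬ e ≤ y → 0 ≤ f e) :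
    (y : ℤ) * V ≤ ∑ e ∈ Icc 1 N, f e := by
  have key : ∀ M : ℕ, M < N → (min M y : ℕ) * V ≤ ∑ e ∈ Icc 1 M, f e := by
    intro M
    induction M with
    | zero => intro _; simp
    | succ M ih =>
      intro hM
      have ih' := ih (by omega)
      rw [Finset.sum_Icc_succ_top (by omega)]
      by_cases hy : M + 1 ≤ y
      · have h4 := h1 (M + 1) (by omega) hM hy
        have e1 : min M y = M := by omega
        have e2 : min (M + 1) y = M + 1 := by omega
        rw [e1] at ih'
        rw [e2]
        push_cast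
        nlinarith
      · have h4 := h3 (M + 1) (by omega) (by omega) hy
        have e1 : min (M + 1) y = min M y := by omega
        rw [e1]
        linarith
  obtain ⟨M, rfl⟩ : ∃ M, N = M + 1 := ⟨N - 1, by omega⟩
  have hM := key M (by omega)
  rw [Finset.sum_Icc_succ_top (by omega)]
  by_cases hy : M + 1 ≤ y
  · have h4 := h2 hy
    have e1 : min M y = M := by omega
    rw [e1] at hM
    have e2 : ((y - (M + 1) : ℕ) : ℤ) = (y : ℤ) - (M + 1) := by
      push_cast [Nat.cast_sub hy]
      ring
    rw [e2] at h4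
    nlinarith
  · have h4 := h3 (M + 1) (by omega) le_rfl hy
    have e1 : min M y = y := by omega
    rw [e1] at hM
    linarith

/-- (SLO) units, lower estimate. -/
theorem slo : T_SLO := by
  intro J _ κ u V EN ER FN FR hκ hV h1 h2 h3 h4
  unfold mvs ex
  push_cast
  rw [Finset.sum_mul]
  apply Finset.sum_le_sum
  intro j _
  by_cases hj : κ j = 0
  · rw [if_pos hj, if_pos hj]
    refine le_trans (one_lo V hV _ (u j - 1) EN ?_ ?_) ?_
    · intro e he1 he2 he3
      refine h1 j e hj he1 he2 ((single_le_iff κ u hκ j _).2 (by omega))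
    · intro e he1 he2 he3
      refine h2 j e hj he1 he2 (fun hh => ?_)
      have := (single_le_iff κ u hκ j _).1 hh
      omega
    · apply mul_le_mul_of_nonneg_right _ hV
      exact_mod_cast min_le_right _ _
  · rw [if_neg hj, if_neg hj]
    have hκj := hκ j
    refine le_trans (one_lo V hV _ (u j - κ j) ER ?_ ?_) ?_
    · intro e he1 he2 he3
      refine h3 j e hj he1 he2 ((single_le_iff κ u hκ j _).2 (by omega))
    · intro e he1 he2 he3
      refine h4 j e hj he1 he2 (fun hh => ?_)
      have := (single_le_iff κ u hκ j _).1 hh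
      omega
    · apply mul_le_mul_of_nonneg_right _ hV
      exact_mod_cast min_le_right _ _

/-- (SUP) units, upper estimate. -/
theorem sup : T_SUP := by
  intro J _ κ u V EN ER FN FR hκ hV hEN hER h1 h2 h3 h4 h5 h6
  unfold mvs ex
  push_cast
  rw [Finset.sum_mul]
  apply Finset.sum_le_sum
  intro j _
  by_cases hj : κ j = 0
  · rw [if_pos hj, if_pos hj]
    refine one_up V _ (u j - 1) EN hEN ?_ ?_ ?_
    · intro e he1 he2 he3
      exact h1 j e hj he1 he2 ((single_le_iff κ u hκ j _).2 (by omega))
    · intro he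
      have h := h2 j hj ((single_le_iff κ u hκ j _).2 (by omega))
      have e1 : u j - 1 - EN = u j - (EN + 1) := by omega
      rw [e1]
      exact h
    · intro e he1 he2 he3
      refine h3 j e hj he1 he2 (fun hh => ?_)
      have := (single_le_iff κ u hκ j _).1 hh
      omega
  · rw [if_neg hj, if_neg hj]
    have hκj := hκ j
    refine one_up V _ (u j - κ j) ER hER ?_ ?_ ?_
    · intro e he1 he2 he3
      exact h4 j e hj he1 he2 ((single_le_iff κ u hκ j _).2 (by omega))
    · intro he
      have h := h5 j hj ((single_le_iff κ u hκ j _).2 (by omega))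
      have e1 : u j - κ j - ER = u j - (κ j + ER) := by omega
      rw [e1]
      exact h
    · intro e he1 he2 he3
      refine h6 j e hj he1 he2 (fun hh => ?_)
      have := (single_le_iff κ u hκ j _).1 hh
      omega

end Pool.Agent.H10.GW
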